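import Pool.Agent.Q277.KT.CT
import Pool.Agent.Q234.KT.Stm2

/-!
# Project KT (helper234), second part, job C2: the contraction for general perturbations
(adapted from `Pool/Agent/Q277/KT/CT.lean`)
-/

set_option autoImplicit false

open scoped BigOperators
open Finset Pool.Agent.Q234.KT Pool.Agent.Q277.KT.JP Pool.Agent.Q277.KT.CT

namespace Pool.Agent.Q68.KT.C2

theorem main (_h1 : WalshS) (h2 : UPart) : ContrG := by
  intro V _ _ J _ t A B w r δ κ ht hr hδ hδa hκ hJ
  have hz : ∀ x : V, nb r t x (fun _ : Finset V => (0 : ℂ)) ≤ δ := by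
    intro y
    unfold nb
    rw [sum_eq_zero]
    · exact hδ.le
    · intro X _
      simp
  constructor
  · intro g hg x
    have hgd : ∀ x, nb r t x (fun X => g X - (fun _ : Finset V => (0 : ℂ)) X) ≤ δ := by
      intro y
      simpa using hg y
    have u1 := h2 V t r δ δ ht hr (by linarith) g (fun _ => 0) hg hz hgd x
    have j1 := (hJ g (fun _ => 0) δ hg hz hgd x).2
    have e := nb_half (t := t) r (Tm A w g) (Ph A w g) x (by
      intro X hX
      unfold Tm
      rw [if_neg]
      rintro rfl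
      simp at hX)
    have s := sum_co ht hr B (fun u σ => Complex.exp (-2 * Gp g {u} σ) - 1 + 2 * Gp g {u} σ)
      (fun j σ => w j σ * Complex.exp (-2 * Gp g (A j) σ)) x
    have eP : (fun σ => ∑ u, (Complex.exp (-2 * Gp g {u} σ) - 1 + 2 * Gp g {u} σ) -
        ∑ j, w j σ * Complex.exp (-2 * Gp g (A j) σ)) = Ph A w g := rfl
    rw [eP] at s
    have eU : ∀ u : V, (fun σ => (Complex.exp (-2 * Gp g {u} σ) - 1 + 2 * Gp g {u} σ) -
        (Complex.exp (-2 * Gp (fun _ => 0) {u} σ) - 1 + 2 * Gp (fun _ => 0) {u} σ)) =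
        fun σ => Complex.exp (-2 * Gp g {u} σ) - 1 + 2 * Gp g {u} σ := by
      intro u
      funext σ
      rw [Gp_zero]
      simp
    simp_rw [eU] at u1
    rw [e]
    have : 48 * δ * δ ≤ δ / 2 := by nlinarith
    linarith
  · intro g g' η hg hg' hd x
    have hη0 : 0 ≤ η := (nb_nonneg hr t x _).trans (hd x)
    have u1 := h2 V t r δ η ht hr (by linarith) g g' hg hg' hd x
    have j1 := (hJ g g' η hg hg' hd x).1
    have e := nb_half (t := t) r (fun X => Tm A w g X - Tm A w g' X)
      (fun σ => Ph A w g σ - Ph A w g' σ) x (by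
      intro X hX
      unfold Tm
      have hne : X ≠ ∅ := by
        rintro rfl
        simp at hX
      rw [if_neg hne, if_neg hne, co_sub]
      ring)
    have s := sum_co ht hr B (fun u σ => (Complex.exp (-2 * Gp g {u} σ) - 1 + 2 * Gp g {u} σ) -
        (Complex.exp (-2 * Gp g' {u} σ) - 1 + 2 * Gp g' {u} σ))
      (fun j σ => w j σ * (Complex.exp (-2 * Gp g (A j) σ) - Complex.exp (-2 * Gp g' (A j) σ))) x
    have eP : (fun σ => ∑ u, ((Complex.exp (-2 * Gp g {u} σ) - 1 + 2 * Gp g {u} σ) -
        (Complex.exp (-2 * Gp g' {u} σ) - 1 + 2 * Gp g' {u} σ)) -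
        ∑ j, w j σ * (Complex.exp (-2 * Gp g (A j) σ) - Complex.exp (-2 * Gp g' (A j) σ))) =
        fun σ => Ph A w g σ - Ph A w g' σ := by
      funext σ
      unfold Ph
      rw [sum_sub_distrib]
      simp_rw [mul_sub]
      rw [sum_sub_distrib (f := fun j => w j σ * Complex.exp (-2 * Gp g (A j) σ))]
      ring
    rw [eP] at s
    rw [e]
    have f1 : 48 * δ * η ≤ η / 2 := by nlinarith
    have f2 : κ * η ≤ 1 / 96 * η := mul_le_mul_of_nonneg_right (by linarith) hη0
    linarith

end Pool.Agent.Q68.KT.C2
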